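import Pool.Agent.U693.X49.Eis
import Pool.Agent.Y696.XK.Fin

/-!
# Transfer to the ring of integers of the field of third roots of unity
-/

set_option autoImplicit false
set_option linter.unusedSectionVars false

open scoped Classical

namespace Pool.Agent.U693.EisK

open NumberField
open Pool.Agent.Y692.QS (Ei nr)
open Pool.Agent.Y715.T.Rec (cs)
open Pool.Agent.Y715.T.RecG (Pq)
open Pool.Agent.Y699.E (PS PD mem_PD)
open Pool.Agent.Y703.CT (GoodE ClsE)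
open Pool.Agent.Y696.CTK (ClsK Tri)
open Pool.Agent.Y696.XK (good_tri)

section
variable {K : Type} [Field K] [NumberField K]

/-- primary primes -/
def PP (q : 𝓞 K) : Prop := Prime q ∧ (3 : 𝓞 K) ∣ q - 1

/-- cubes modulo `q` -/
def CubeMod (q a : 𝓞 K) : Prop := ∃ b : 𝓞 K, q ∣ a - b ^ 3

/-- in the class, finitely many points and `Ш[3^∞] = 0` -/
def Gd3 (D : 𝓞 K) : Prop := ClsK D ∧ Tri D

/-- the number of the primary primes dividing `D` -/
noncomputable def om (D : 𝓞 K) : ℕ := {q : 𝓞 K | PP q ∧ q ∣ D}.ncard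

variable (j : Ei ≃+* 𝓞 K)

theorem pp_iff (q : Ei) : PP (j q) ↔ Pq q := by
  have h1 : (3 : 𝓞 K) ∣ j q - 1 ↔ (3 : Ei) ∣ q - 1 := by
    have : j q - 1 = j (q - 1) := by rw [map_sub, map_one]
    rw [this, ← map_ofNat j 3, map_dvd_iff j]
  have h2 : Prime (j q) ↔ Prime q := MulEquiv.prime_iff j
  constructor
  · rintro ⟨h3, h4⟩
    exact ⟨h2.1 h3, h1.1 h4⟩
  · intro h
    exact ⟨h2.2 h.prime, h1.2 h.three⟩

theorem cube_iff {q D : Ei} : CubeMod (j q) (j D) ↔ ∃ y, q ∣ D - y ^ 3 := by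
  constructor
  · rintro ⟨b, hb⟩
    obtain ⟨y, rfl⟩ := j.surjective b
    refine ⟨y, ?_⟩
    rw [← map_pow, ← map_sub, map_dvd_iff j] at hb
    exact hb
  · rintro ⟨y, hy⟩
    refine ⟨j y, ?_⟩
    rw [← map_pow, ← map_sub, map_dvd_iff j]
    exact hy

theorem non_iff {q D : Ei} (hq : Pq q) : ¬ CubeMod (j q) (j D) ↔ ¬ q ∣ D ∧ cs q D ≠ 0 := by
  rw [cube_iff]
  by_cases h : q ∣ D
  · have h1 : ∃ y, q ∣ D - y ^ 3 := ⟨0, by simpa using h⟩
    exact ⟨fun h2 => absurd h1 h2, fun h2 => absurd h h2.1⟩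
  · have h1 := Pool.Agent.Y715.T.RecG.cs_zero_iff hq.prime hq.norm h
    rw [← h1]
    exact ⟨fun h2 => ⟨h, h2⟩, fun h2 => h2.2⟩

theorem om_eq {D : Ei} (hD : D ≠ 0) : om (j D) = (PD D).card := by
  have h1 : {q : 𝓞 K | PP q ∧ q ∣ j D} = j '' (PD D : Set Ei) := by
    ext q
    obtain ⟨z, rfl⟩ := j.surjective q
    rw [Set.mem_setOf_eq, pp_iff, map_dvd_iff j]
    constructor
    · intro h
      exact ⟨z, Finset.mem_coe.2 ((mem_PD hD).2 h), rfl⟩
    · rintro ⟨y, hy, h⟩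
      have := j.injective h
      subst this
      exact (mem_PD hD).1 (Finset.mem_coe.1 hy)
  unfold om
  rw [h1, Set.ncard_image_of_injective _ j.injective, Set.ncard_coe_finset]

theorem map_prod' (D : Ei) (A : Finset Ei) :
    j (D * ∏ q ∈ A, q) = j D * ∏ q ∈ A.map j.toEquiv.toEmbedding, q := by
  rw [map_mul, map_prod, Finset.prod_map]
  rfl

variable (hj : ∀ z : Ei, Algebra.norm ℤ (j z) = nr z)

include hj

theorem gd_iff (D : Ei) : Gd3 (j D) ↔ GoodE D := (good_tri j hj D).symm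

theorem gd_prod (D : Ei) (A : Finset Ei) :
    Gd3 (j D * ∏ q ∈ A.map j.toEquiv.toEmbedding, q) ↔ GoodE (D * ∏ q ∈ A, q) := by
  rw [← map_prod', gd_iff j hj]

theorem inf_K {D : 𝓞 K} (hg : Gd3 D) (S : Set (𝓞 K)) (hS : ∀ q ∈ S, PP q) :
    (∃ T ⊆ S, T.Infinite ∧ ∀ A : Finset (𝓞 K), (A : Set (𝓞 K)) ⊆ T → 3 ∣ A.card →
      Gd3 (D * ∏ q ∈ A, q)) ↔ {q ∈ S | ¬ CubeMod q D}.Infinite := by
  obtain ⟨z, rfl⟩ := j.surjective D
  have hgz := (gd_iff j hj z).1 hg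
  have hS' : ∀ q ∈ j ⁻¹' S, Pq q := fun q hq => (pp_iff j q).1 (hS _ hq)
  have hset : {q ∈ S | ¬ CubeMod q (j z)} = j '' {q ∈ j ⁻¹' S | ¬ q ∣ z ∧ cs q z ≠ 0} := by
    ext q
    obtain ⟨y, rfl⟩ := j.surjective q
    constructor
    · rintro ⟨h1, h2⟩
      exact ⟨y, ⟨h1, (non_iff j (hS' y h1)).1 h2⟩, rfl⟩
    · rintro ⟨x, ⟨h1, h2⟩, h⟩
      have := j.injective h
      subst this
      exact ⟨h1, (non_iff j (hS' x h1)).2 h2⟩
  rw [hset, Set.infinite_image_iff j.injective.injOn, ← Pool.Agent.U693.Eis.inf_part hgz _ hS']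
  constructor
  · rintro ⟨T, hT1, hT2, hT3⟩
    refine ⟨j ⁻¹' T, Set.preimage_mono hT1, ?_, fun A hA h3 => ?_⟩
    · refine hT2.preimage ?_
      intro x _
      exact j.surjective x
    · rw [← gd_prod j hj]
      refine hT3 _ ?_ (by rw [Finset.card_map]; exact h3)
      intro x hx
      obtain ⟨y, hy, rfl⟩ := Finset.mem_map.1 (Finset.mem_coe.1 hx)
      exact hA (Finset.mem_coe.2 hy)
  · rintro ⟨T, hT1, hT2, hT3⟩
    refine ⟨j '' T, Set.image_subset_iff.2 hT1, hT2.image j.injective.injOn, fun A hA h3 => ?_⟩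
    have hA1 : (A.map j.symm.toEquiv.toEmbedding).map j.toEquiv.toEmbedding = A := by
      ext x
      simp
    rw [← hA1, gd_prod j hj]
    refine hT3 _ ?_ (by rw [Finset.card_map]; exact h3)
    intro x hx
    obtain ⟨y, hy, rfl⟩ := Finset.mem_map.1 (Finset.mem_coe.1 hx)
    obtain ⟨t, ht, hty⟩ := hA (Finset.mem_coe.2 hy)
    have : j.symm y = t := by rw [← hty]; exact j.symm_apply_apply t
    show j.symm y ∈ T
    rw [this]
    exact ht

theorem fin_K {D : 𝓞 K} (hg : Gd3 D) {k : ℕ} (hk : 3 ∣ k) (S : Finset (𝓞 K))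
    (hS : ∀ q ∈ S, PP q ∧ ¬ CubeMod q D) (hc : 3 ^ (3 * k + om D + 1) ≤ S.card) :
    S.card.choose k ≤ (3 ^ (3 * k + om D + 1)).choose k *
      ((S.powersetCard k).filter fun A => Gd3 (D * ∏ q ∈ A, q)).card := by
  obtain ⟨z, rfl⟩ := j.surjective D
  have hgz := (gd_iff j hj z).1 hg
  have hz : z ≠ 0 := (Pool.Agent.U693.Eis.ps_of (Pool.Agent.U693.Eis.cls_of hgz)).ne
  rw [om_eq j hz] at hc ⊢
  set S' : Finset Ei := S.map j.symm.toEquiv.toEmbedding with hS'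
  have hcard : S'.card = S.card := Finset.card_map _
  have hmem : ∀ q ∈ S', j q ∈ S := by
    intro q hq
    obtain ⟨y, hy, rfl⟩ := Finset.mem_map.1 hq
    show j (j.symm y) ∈ S
    rw [j.apply_symm_apply]
    exact hy
  have h := Pool.Agent.U693.Eis.fin_part hgz hk S' (fun q hq => by
    have h1 := hS _ (hmem q hq)
    have h2 := (pp_iff j q).1 h1.1
    exact ⟨h2, (non_iff j h2).1 h1.2⟩) (by rw [hcard]; exact hc)
  rw [hcard] at h
  refine h.trans (Nat.mul_le_mul_left _ ?_)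
  refine Finset.card_le_card_of_injOn (fun A => A.map j.toEquiv.toEmbedding) ?_ ?_
  · intro A hA
    have hA' := Finset.mem_filter.1 (Finset.mem_coe.1 hA)
    obtain ⟨hA1, hA2⟩ := Finset.mem_powersetCard.1 hA'.1
    refine Finset.mem_coe.2 (Finset.mem_filter.2 ⟨Finset.mem_powersetCard.2 ⟨?_, ?_⟩, ?_⟩)
    · intro x hx
      obtain ⟨y, hy, rfl⟩ := Finset.mem_map.1 hx
      exact hmem y (hA1 hy)
    · rw [Finset.card_map, hA2]
    · exact (gd_prod j hj z A).2 hA'.2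
  · intro A _ B _ h'
    exact Finset.map_injective _ h'

theorem prime_K {q : 𝓞 K} (hq : PP q) (hN : ¬ (9 : ℤ) ∣ Algebra.norm ℤ q - 1) : Gd3 q := by
  obtain ⟨z, rfl⟩ := j.surjective q
  rw [hj] at hN
  exact (gd_iff j hj z).2 (Pool.Agent.U693.Eis.prime_good ((pp_iff j z).1 hq) hN)

end

end Pool.Agent.U693.EisK
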