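import Pool.Agent.U693.X49.Multi
import Pool.Agent.Y699.E.Fin
import Pool.Agent.Y699.E.Rec0

/-!
# The good Eisenstein integers: extension by homogeneous sets of primes
-/

set_option autoImplicit false
set_option linter.unusedSectionVars false

open scoped Classical

namespace Pool.Agent.U693.Eis

open Finset
open Pool.Agent.Y692.QS (Ei w nr nr_mul)
open Pool.Agent.Y715.T.Rec (cs)
open Pool.Agent.Y715.T.RecG (Pq)
open Pool.Agent.Y699.E (PS PD mem_PD PS_prod rec_all eq_of_dvd ppr_eq)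
open Pool.Agent.Y703.CT (GoodE ClsE ppr)
open Pool.Agent.U693.Gen

theorem cs_symm {π ρ : Ei} (h1 : Pq π) (h2 : Pq ρ) : cs π ρ = cs ρ π := by
  by_cases h : π = ρ
  · rw [h]
  · exact (rec_all ρ π h2 h1 fun h' => h (eq_of_dvd h1 h2 h')) 

theorem ps_of {D : Ei} (h : ClsE D) : PS D := ⟨h.1, h.2.1⟩

theorem cls_of {D : Ei} (h : GoodE D) : ClsE D := ⟨h.1, h.2.1, h.2.2.1⟩

/-- the criterion in terms of the Laplacian -/
theorem good_iff {D : Ei} : GoodE D ↔ ClsE D ∧ GdL cs (fun _ => True) (PD D) := by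
  constructor
  · intro h
    have h0 := cls_of h
    refine ⟨h0, fun x hx => ?_⟩
    have h1 := h.2.2.2
    rw [ppr_eq (ps_of h0).ne] at h1
    exact h1 x fun π hπ => hx π hπ trivial
  · rintro ⟨h0, h⟩
    refine ⟨h0.1, h0.2.1, h0.2.2, ?_⟩
    rw [ppr_eq (ps_of h0).ne]
    exact fun v hv => h v fun p hp _ => hv p hp

/-- the symbol of `D` -/
theorem sum_cs {D q : Ei} (hD : PS D) (hq : Pq q) (hqD : ¬ q ∣ D) :
    ∑ i ∈ PD D, cs q i = cs q D := by
  have h1 := Pool.Agent.Y715.T.RecG.cs_prod hq.prime hq.norm (PD D) (fun i => i)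
    fun i hi h' => hqD (h'.trans ((mem_PD hD.ne).1 hi).2)
  rw [hD.prod] at h1
  exact h1.symm

theorem not_mem {D q : Ei} (hD : D ≠ 0) (hqD : ¬ q ∣ D) : q ∉ PD D := fun h =>
  hqD ((mem_PD hD).1 h).2

/-- the colour: the norm modulo `9` -/
noncomputable def kap (q : Ei) : ZMod 3 := ((nr q / 3 : ℤ) : ZMod 3)

theorem nr_mod {q : Ei} (hq : (3 : Ei) ∣ q - 1) : nr q % 3 = 1 := by
  obtain ⟨c, hc⟩ := hq
  have e1 : (1 : Ei).re = 1 := rfl
  have e2 : (1 : Ei).im = 0 := rfl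
  have e3 : (3 : Ei).re = 3 := rfl
  have e4 : (3 : Ei).im = 0 := rfl
  have hre : q.re = 1 + 3 * c.re := by
    have := congrArg (fun z : Ei => z.re) hc
    simp [e1, e3, e4] at this
    omega
  have him : q.im = 3 * c.im := by
    have := congrArg (fun z : Ei => z.im) hc
    simp [e2, e3, e4] at this
    omega
  have h1 := Pool.Agent.Y699.E.nrm_eq' q
  rw [Pool.Agent.Y699.E.nrm_cast] at h1
  rw [h1, hre, him]
  have e : (1 + 3 * c.re) ^ 2 - (1 + 3 * c.re) * (3 * c.im) + (3 * c.im) ^ 2 =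
      1 + 3 * (2 * c.re + 3 * c.re ^ 2 - c.im - 3 * c.re * c.im + 3 * c.im ^ 2) := by ring
  rw [e]
  omega

theorem norm_kap {q r : Ei} (hq : (3 : Ei) ∣ q - 1) (hr : (3 : Ei) ∣ r - 1) (h : kap q = kap r) :
    nr q % 9 = nr r % 9 := by
  have h1 := nr_mod hq
  have h2 := nr_mod hr
  have h3 : (3 : ℤ) ∣ nr r / 3 - nr q / 3 := by
    have := (ZMod.intCast_eq_intCast_iff_dvd_sub (nr q / 3) (nr r / 3) 3).1 h
    exact_mod_cast this
  omega

theorem pow_mod {a : ℤ} (h : a % 3 = 1) {m : ℕ} (hm : 3 ∣ m) : a ^ m % 9 = 1 := by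
  obtain ⟨k, rfl⟩ := hm
  have h1 : a ^ 3 % 9 = 1 := by
    have h3 : a % 9 = 1 ∨ a % 9 = 4 ∨ a % 9 = 7 := by omega
    rcases h3 with h3 | h3 | h3 <;>
      (rw [pow_succ, pow_succ, pow_one, Int.mul_emod, Int.mul_emod a a, h3]; norm_num)
  rw [pow_mul]
  induction k with
  | zero => norm_num
  | succ k ih => rw [pow_succ, Int.mul_emod, ih, h1]; norm_num

/-- the norm of the product -/
theorem norm_prod {A : Finset Ei} {a : ℤ} (ha : a % 3 = 1) (hA : ∀ q ∈ A, nr q % 9 = a % 9)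
    (h3 : 3 ∣ A.card) (D : Ei) : nr (D * ∏ q ∈ A, q) % 9 = nr D % 9 := by
  have h1 : nr (∏ q ∈ A, q) % 9 = a ^ A.card % 9 := by
    clear h3
    induction A using Finset.induction_on with
    | empty =>
      rw [prod_empty, card_empty, pow_zero]
      have : nr (1 : Ei) = 1 := by decide
      rw [this]
    | insert q A hq ih =>
      rw [prod_insert hq, card_insert_of_notMem hq, nr_mul, Int.mul_emod,
        ih fun r hr => hA r (mem_insert_of_mem hr), hA q (mem_insert_self _ _), pow_succ, mul_comm,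
        ← Int.mul_emod]
  rw [nr_mul, Int.mul_emod, h1, pow_mod ha h3, mul_one, Int.emod_emod_of_dvd _ dvd_rfl]

theorem prod_PS {D : Ei} (hD : PS D) {A : Finset Ei} (hA : ∀ q ∈ A, Pq q) (hd : Disjoint (PD D) A) :
    PS (D * ∏ q ∈ A, q) ∧ PD (D * ∏ q ∈ A, q) = PD D ∪ A := by
  have h1 := PS_prod (S := PD D ∪ A) fun π hπ => by
    rcases mem_union.1 hπ with h | h
    · exact ((mem_PD hD.ne).1 h).1
    · exact hA π h
  rw [prod_union hd, hD.prod] at h1
  exact h1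

theorem cls_prod {D : Ei} (hD : ClsE D) {A : Finset Ei} (hA : ∀ q ∈ A, Pq q)
    (hd : Disjoint (PD D) A) (hk : ∀ q ∈ A, ∀ r ∈ A, kap q = kap r) (h3 : 3 ∣ A.card) :
    ClsE (D * ∏ q ∈ A, q) := by
  obtain ⟨g1, -⟩ := prod_PS (ps_of hD) hA hd
  refine ⟨g1.prm, g1.sqf, ?_⟩
  have hN : nr (D * ∏ q ∈ A, q) % 9 = nr D % 9 := by
    rcases A.eq_empty_or_nonempty with rfl | ⟨q₀, hq₀⟩
    · rw [prod_empty, mul_one]
    · exact norm_prod (a := nr q₀) (nr_mod (hA q₀ hq₀).three)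
        (fun q hq => norm_kap (hA q hq).three (hA q₀ hq₀).three (hk q hq q₀ hq₀)) h3 D
  have := hD.2.2
  omega

theorem pd_ne {D : Ei} (h : ClsE D) : (PD D).Nonempty := by
  rw [Finset.nonempty_iff_ne_empty]
  intro e
  have h1 := (ps_of h).prod
  rw [e, prod_empty] at h1
  have h2 := h.2.2
  rw [← h1] at h2
  apply h2
  have : nr (1 : Ei) = 1 := by decide
  rw [this]
  norm_num

theorem card_zero {A : Finset Ei} (h3 : 3 ∣ A.card) : ((A.card : ℕ) : ZMod 3) = 0 :=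
  (ZMod.natCast_eq_zero_iff _ _).2 h3

/-- **extension** -/
theorem step {D : Ei} (hg : GoodE D) {A : Finset Ei} (hA : ∀ q ∈ A, Pq q ∧ ¬ q ∣ D ∧ cs q D ≠ 0)
    (hH : Hom cs kap (PD D) A) (h3 : 3 ∣ A.card) : GoodE (D * ∏ q ∈ A, q) := by
  have hD := cls_of hg
  have hps := ps_of hD
  have hd : Disjoint (PD D) A := by
    rw [disjoint_left]
    exact fun q h1 h2 => not_mem hps.ne (hA q h2).2.1 h1
  have hAq : ∀ q ∈ A, Pq q := fun q hq => (hA q hq).1
  rw [good_iff, (prod_PS hps hAq hd).2]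
  refine ⟨cls_prod hD hAq hd hH.col h3, ?_⟩
  exact gdL_hom hd (card_zero h3) (pd_ne hD) (good_iff.1 hg).2 hH (fun _ _ => trivial)
    fun q hq => by
      rw [sum_cs hps (hA q hq).1 (hA q hq).2.1]
      exact (hA q hq).2.2

theorem fin_part {D : Ei} (hg : GoodE D) {k : ℕ} (hk : 3 ∣ k) (S : Finset Ei)
    (hS : ∀ q ∈ S, Pq q ∧ ¬ q ∣ D ∧ cs q D ≠ 0) (hc : 3 ^ (3 * k + (PD D).card + 1) ≤ S.card) :
    S.card.choose k ≤ (3 ^ (3 * k + (PD D).card + 1)).choose k *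
      ((S.powersetCard k).filter fun A => GoodE (D * ∏ q ∈ A, q)).card := by
  have hps := ps_of (cls_of hg)
  refine count S k _ _ ?_ hc ?_
  · calc k ≤ 3 ^ k := (Nat.lt_pow_self (by norm_num)).le
      _ ≤ _ := Nat.pow_le_pow_right (by norm_num) (by omega)
  · intro B hB hBN
    have hPD : ∀ i ∈ PD D, Pq i := fun i hi => ((mem_PD hps.ne).1 hi).1
    obtain ⟨A, hA, hAk, hH⟩ := hom_fin_multi cs kap (PD D) B k
      (fun i hi q hq => cs_symm (hS q (hB hq)).1 (hPD i hi))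
      (fun p hp q hq => cs_symm (hS p (hB hp)).1 (hS q (hB hq)).1)
      (by rw [ZMod.card, hBN, ← pow_succ])
    exact ⟨A, hA, hAk, step hg (fun q hq => hS q (hB (hA hq))) hH (by rwa [hAk])⟩

theorem inf_part {D : Ei} (hg : GoodE D) (S : Set Ei) (hS : ∀ q ∈ S, Pq q) :
    (∃ T ⊆ S, T.Infinite ∧ ∀ A : Finset Ei, (A : Set Ei) ⊆ T → 3 ∣ A.card →
      GoodE (D * ∏ q ∈ A, q)) ↔ {q ∈ S | ¬ q ∣ D ∧ cs q D ≠ 0}.Infinite := by
  have hD := cls_of hg
  have hps := ps_of hD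
  constructor
  · rintro ⟨T, hTS, hTi, h⟩
    by_contra hfin
    rw [Set.not_infinite] at hfin
    have h1 : (T \ ({q ∈ S | ¬ q ∣ D ∧ cs q D ≠ 0} ∪ (PD D : Set Ei))).Infinite :=
      hTi.sdiff (hfin.union (PD D).finite_toSet)
    obtain ⟨T', hT1, hT2, hT3⟩ := hom_inf cs kap (PD D) _ h1 fun p hp q hq =>
      cs_symm (hS p (hTS hp.1)) (hS q (hTS hq.1))
    obtain ⟨A, hA, hA3⟩ := hT2.exists_subset_card_eq 3
    have hA1 : ∀ q ∈ A, q ∈ T \ ({q ∈ S | ¬ q ∣ D ∧ cs q D ≠ 0} ∪ (PD D : Set Ei)) := fun q hq =>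
      hT1 (hA (Finset.mem_coe.2 hq))
    have hAP : ∀ q ∈ A, Pq q := fun q hq => hS q (hTS (hA1 q hq).1)
    have hd : Disjoint (PD D) A := by
      rw [disjoint_left]
      intro q e1 e2
      exact (hA1 q e2).2 (Set.mem_union_right _ (Finset.mem_coe.2 e1))
    have hnd : ∀ q ∈ A, ¬ q ∣ D := fun q hq h' =>
      disjoint_left.1 hd ((mem_PD hps.ne).2 ⟨hAP q hq, h'⟩) hq
    have hz : ∀ q ∈ A, cs q D = 0 := by
      intro q hq
      by_contra h'
      exact (hA1 q hq).2 (Set.mem_union_left _ ⟨hTS (hA1 q hq).1, hnd q hq, h'⟩)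
    have hG := h A (fun q hq => (hA1 q (Finset.mem_coe.1 hq)).1) (by rw [hA3])
    rw [good_iff, (prod_PS hps hAP hd).2] at hG
    have hne : A.Nonempty := by
      rw [← Finset.card_pos, hA3]
      norm_num
    exact not_gdL hd (card_zero (by rw [hA3])) (pd_ne hD) hne (hT3 A hA).inn
      (fun q hq => by rw [sum_cs hps (hAP q hq) (hnd q hq), hz q hq]) hG.2
  · intro hI
    obtain ⟨T, hT1, hT2, hT3⟩ := hom_inf cs kap (PD D) _ hI fun p hp q hq =>
      cs_symm (hS p hp.1) (hS q hq.1)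
    refine ⟨T, fun q hq => (hT1 hq).1, hT2, fun A hA h3 => ?_⟩
    exact step hg (fun q hq => ⟨hS q (hT1 (hA (Finset.mem_coe.2 hq))).1,
      (hT1 (hA (Finset.mem_coe.2 hq))).2⟩) (hT3 A hA) h3

/-- prime numbers -/
theorem prime_good {q : Ei} (hq : Pq q) (hN : ¬ (9 : ℤ) ∣ nr q - 1) : GoodE q := by
  rw [good_iff, Pool.Agent.Y699.E.PD_prime hq]
  refine ⟨⟨hq.three, hq.prime.irreducible.squarefree, hN⟩, fun x _ p hp r hr => ?_⟩
  rw [mem_singleton.1 hp, mem_singleton.1 hr]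

end Pool.Agent.U693.Eis
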