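import Pool.Agent.H330.Ramsey
import Pool.Agent.H265R2.CritP4

/-!
# Laplacians over finite fields: extension by homogeneous sets

`V` is a set of primes, `s p q` the symbols with values in a finite field.
-/

set_option autoImplicit false
set_option linter.unusedSectionVars false

open scoped Classical

namespace Pool.Agent.U693.Gen

open Finset

variable {V F : Type} [DecidableEq V] [Field F]

/-- all solutions are constant on `S` -/
def GdL (s : V → V → F) (ρ : V → Prop) (S : Finset V) : Prop :=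
  ∀ x : V → F, (∀ p ∈ S, ρ p → ∑ q ∈ S, s p q * (x q - x p) = 0) → ∀ p ∈ S, ∀ q ∈ S, x p = x q

/-- **extension** -/
theorem gdL_ext {s : V → V → F} {ρ : V → Prop} {P A : Finset V} {u v : V → F} {c : F}
    (hd : Disjoint P A) (hm : (A.card : F) = 0) (hP : P.Nonempty) (hG : GdL s ρ P)
    (hu : ∀ i ∈ P, ∀ q ∈ A, s i q = u i) (hv : ∀ q ∈ A, ∀ i ∈ P, s q i = v i)
    (hc : ∀ p ∈ A, ∀ q ∈ A, p ≠ q → s p q = c) (hρ : ∀ q ∈ A, ρ q)
    (hV : ∑ i ∈ P, v i ≠ 0) : GdL s ρ (P ∪ A) := by
  intro x hx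
  set X : F := ∑ q ∈ A, x q with hX
  set W : F := ∑ i ∈ P, v i * x i with hW
  set v₀ : F := ∑ i ∈ P, v i with hv₀
  have hsum : ∀ p, ∑ q ∈ A, (x q - x p) = X := by
    intro p
    rw [sum_sub_distrib, sum_const, nsmul_eq_mul, hm, zero_mul, sub_zero]
  have hnew : ∀ p ∈ A, x p = (W + c * X) / v₀ := by
    intro p hp
    have h1 := hx p (mem_union_right _ hp) (hρ p hp)
    rw [sum_union hd] at h1
    have h2 : ∑ q ∈ P, s p q * (x q - x p) = W - v₀ * x p := by
      have : ∀ q ∈ P, s p q * (x q - x p) = v q * x q - v q * x p := by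
        intro q hq
        rw [hv p hp q hq]
        ring
      rw [sum_congr rfl this, sum_sub_distrib, ← sum_mul]
    have h3 : ∑ q ∈ A, s p q * (x q - x p) = c * X := by
      rw [← hsum p, mul_sum]
      refine sum_congr rfl fun q hq => ?_
      by_cases hpq : p = q
      · rw [hpq, sub_self, mul_zero, mul_zero]
      · rw [hc p hp q hq hpq]
    rw [h2, h3] at h1
    rw [eq_div_iff hV]
    linear_combination -h1
  have hX0 : X = 0 := by
    rw [hX, sum_congr rfl hnew, sum_const, nsmul_eq_mul, hm, zero_mul]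
  have hold : ∀ i ∈ P, ρ i → ∑ q ∈ P, s i q * (x q - x i) = 0 := by
    intro i hi hi1
    have h1 := hx i (mem_union_left _ hi) hi1
    rw [sum_union hd] at h1
    have h3 : ∑ q ∈ A, s i q * (x q - x i) = u i * X := by
      rw [← hsum i, mul_sum]
      exact sum_congr rfl fun q hq => by rw [hu i hi q hq]
    rw [h3, hX0, mul_zero, add_zero] at h1
    exact h1
  have hP0 := hG x hold
  obtain ⟨i₀, hi₀⟩ := hP
  have hPt : ∀ i ∈ P, x i = x i₀ := fun i hi => hP0 i hi i₀ hi₀
  have hWt : W = v₀ * x i₀ := by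
    rw [hW, hv₀, sum_mul]
    exact sum_congr rfl fun i hi => by rw [hPt i hi]
  have hall : ∀ p ∈ P ∪ A, x p = x i₀ := by
    intro p hp
    rcases mem_union.1 hp with h | h
    · exact hPt p h
    · rw [hnew p h, hX0, hWt, mul_zero, add_zero, mul_div_cancel_left₀ _ hV]
  intro p hp q hq
  rw [hall p hp, hall q hq]

/-- not all solutions are constant if the sum of the symbols is zero -/
theorem not_gdL {s : V → V → F} {ρ : V → Prop} {P A : Finset V}
    (hd : Disjoint P A) (hm : (A.card : F) = 0) (hP : P.Nonempty) (hA : A.Nonempty)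
    (hu : ∀ i ∈ P, ∀ q ∈ A, ∀ q' ∈ A, s i q = s i q') (hV : ∀ q ∈ A, ∑ i ∈ P, s q i = 0) :
    ¬ GdL s ρ (P ∪ A) := by
  intro h
  obtain ⟨i₀, hi₀⟩ := hP
  obtain ⟨q₀, hq₀⟩ := hA
  have hn : ∀ i ∈ P, i ∉ A := fun i hi => disjoint_left.1 hd hi
  let x : V → F := fun r => if r ∈ A then 1 else 0
  have xA : ∀ r ∈ A, x r = 1 := fun r hr => if_pos hr
  have xP : ∀ r ∈ P, x r = 0 := fun r hr => if_neg (hn r hr)
  have h1 := h x (fun p hp _ => ?_) q₀ (mem_union_right _ hq₀) i₀ (mem_union_left _ hi₀)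
  · rw [xA q₀ hq₀, xP i₀ hi₀] at h1
    exact one_ne_zero h1
  · rw [sum_union hd]
    rcases mem_union.1 hp with hp | hp
    · have e1 : ∑ q ∈ P, s p q * (x q - x p) = 0 :=
        sum_eq_zero fun q hq => by rw [xP q hq, xP p hp, sub_self, mul_zero]
      have e2 : ∑ q ∈ A, s p q * (x q - x p) = ∑ q ∈ A, s p q₀ :=
        sum_congr rfl fun q hq => by rw [xA q hq, xP p hp, sub_zero, mul_one, hu p hp q hq q₀ hq₀]
      rw [e1, e2, sum_const, nsmul_eq_mul, hm, zero_mul, add_zero]
    · have e1 : ∑ q ∈ P, s p q * (x q - x p) = - ∑ q ∈ P, s p q := by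
        rw [← sum_neg_distrib]
        exact sum_congr rfl fun q hq => by rw [xP q hq, xA p hp, zero_sub, mul_neg, mul_one]
      have e2 : ∑ q ∈ A, s p q * (x q - x p) = 0 :=
        sum_eq_zero fun q hq => by rw [xA q hq, xA p hp, sub_self, mul_zero]
      rw [e1, e2, hV p hp, neg_zero, add_zero]

/-! ### Ramsey -/

/-- homogeneous sets: one colour, constant symbols with respect to `P`, and one symbol for all pairs -/
structure Hom {C : Type} (s : V → V → F) (κ : V → C) (P A : Finset V) : Prop where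
  col : ∀ q ∈ A, ∀ r ∈ A, κ q = κ r
  inn : ∀ i ∈ P, ∀ q ∈ A, ∀ r ∈ A, s i q = s i r
  out : ∀ i ∈ P, ∀ q ∈ A, ∀ r ∈ A, s q i = s r i
  pr : ∀ p ∈ A, ∀ q ∈ A, ∀ r ∈ A, ∀ t ∈ A, p ≠ q → r ≠ t → s p q = s r t

theorem Hom.mono {C : Type} {s : V → V → F} {κ : V → C} {P A B : Finset V} (h : Hom s κ P A)
    (hB : B ⊆ A) : Hom s κ P B :=
  ⟨fun q hq r hr => h.col q (hB hq) r (hB hr), fun i hi q hq r hr => h.inn i hi q (hB hq) r (hB hr),
    fun i hi q hq r hr => h.out i hi q (hB hq) r (hB hr),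
    fun p hp q hq r hr t ht => h.pr p (hB hp) q (hB hq) r (hB hr) t (hB ht)⟩

theorem gdL_hom {C : Type} {s : V → V → F} {ρ : V → Prop} {κ : V → C} {P A : Finset V}
    (hd : Disjoint P A) (hm : (A.card : F) = 0) (hP : P.Nonempty) (hG : GdL s ρ P)
    (hH : Hom s κ P A) (hρ : ∀ q ∈ A, ρ q) (hV : ∀ q ∈ A, ∑ i ∈ P, s q i ≠ 0) :
    GdL s ρ (P ∪ A) := by
  rcases A.eq_empty_or_nonempty with rfl | ⟨q₀, hq₀⟩
  · rwa [union_empty]
  by_cases hp : ∃ r ∈ A, r ≠ q₀
  · obtain ⟨r, hr, hrq⟩ := hp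
    exact gdL_ext (u := fun i => s i q₀) (v := fun i => s q₀ i) (c := s r q₀) hd hm hP hG
      (fun i hi q hq => hH.inn i hi q hq q₀ hq₀) (fun q hq i hi => hH.out i hi q hq q₀ hq₀)
      (fun p h1 q h2 hpq => hH.pr p h1 q h2 r hr q₀ hq₀ hpq hrq) hρ (hV q₀ hq₀)
  · push Not at hp
    exact gdL_ext (u := fun i => s i q₀) (v := fun i => s q₀ i) (c := 0) hd hm hP hG
      (fun i hi q hq => hH.inn i hi q hq q₀ hq₀) (fun q hq i hi => hH.out i hi q hq q₀ hq₀)
      (fun p h1 q h2 hpq => absurd ((hp p h1).trans (hp q h2).symm) hpq) hρ (hV q₀ hq₀)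

/-- the infinite theorem of Ramsey for symmetric symbols with finitely many values -/
theorem hom_inf [Finite F] {C : Type} [Finite C] (s : V → V → F) (κ : V → C) (P : Finset V)
    (S : Set V) (hS : S.Infinite) (hsy : ∀ p ∈ S, ∀ q ∈ S, s p q = s q p) :
    ∃ T ⊆ S, T.Infinite ∧ ∀ A : Finset V, (A : Set V) ⊆ T → Hom s κ P A := by
  have : Infinite S := hS.to_subtype
  -- first a set with one colour
  obtain ⟨H₁, c₁, hH₁, h₁⟩ := Pool.Agent.H330.infinite_ramsey 1
    (fun w : Finset S => {y : C × (P → F) × (P → F) |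
      ∃ q ∈ w, y = (κ q, (fun i : P => s i q), fun i : P => s q i)})
  obtain ⟨H, c, hH, hHs, h⟩ : ∃ (H : Set S) (c : Set F), H.Infinite ∧ H ⊆ H₁ ∧
      ∀ w : Finset S, w.card = 2 → (↑w : Set S) ⊆ H →
        {c : F | ∃ p ∈ w, ∃ q ∈ w, p ≠ q ∧ c = s p q} = c := by
    have : Infinite H₁ := hH₁.to_subtype
    obtain ⟨H, c, hH, h⟩ := Pool.Agent.H330.infinite_ramsey 2
      (fun w : Finset H₁ => {c : F | ∃ p ∈ w.map (Function.Embedding.subtype _),
        ∃ q ∈ w.map (Function.Embedding.subtype _), p ≠ q ∧ c = s p q})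
    refine ⟨Subtype.val '' H, c, hH.image Subtype.val_injective.injOn, ?_, ?_⟩
    · rintro _ ⟨x, -, rfl⟩
      exact x.2
    · intro w hw hwH
      have hw1 : ∀ x ∈ w, x ∈ H₁ := fun x hx => by
        obtain ⟨y, -, rfl⟩ := hwH (mem_coe.2 hx)
        exact y.2
      have h2 := h (w.subtype (· ∈ H₁)) ?_ ?_
      · rw [subtype_map_of_mem hw1] at h2
        exact h2
      · rw [card_subtype, filter_true_of_mem hw1, hw]
      · intro y hy
        have hy' : (y : S) ∈ w := by
          have := mem_coe.1 hy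
          rwa [mem_subtype] at this
        obtain ⟨z, hz, hzy⟩ := hwH (mem_coe.2 hy')
        rw [← Subtype.ext hzy]
        exact hz
  refine ⟨Subtype.val '' H, ?_, hH.image Subtype.val_injective.injOn, ?_⟩
  · rintro _ ⟨x, -, rfl⟩
    exact x.2
  intro A hA
  have hAS : ∀ q ∈ A, ∃ x : S, x ∈ H ∧ (x : V) = q := fun q hq => hA (mem_coe.2 hq)
  have hcol : ∀ q ∈ A, ∀ r ∈ A, (κ q, (fun i : P => s i q), fun i : P => s q i) =
      (κ r, (fun i : P => s i r), fun i : P => s r i) := by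
    intro q hq r hr
    obtain ⟨x, hx, rfl⟩ := hAS q hq
    obtain ⟨y, hy, rfl⟩ := hAS r hr
    have e1 := h₁ {x} (card_singleton x) (by
      intro z hz
      rw [coe_singleton, Set.mem_singleton_iff] at hz
      rw [hz]
      exact hHs hx)
    have e2 := h₁ {y} (card_singleton y) (by
      intro z hz
      rw [coe_singleton, Set.mem_singleton_iff] at hz
      rw [hz]
      exact hHs hy)
    have e3 := e1.trans e2.symm
    have e4 : ((κ x, (fun i : P => s i x), fun i : P => s x i) : C × (P → F) × (P → F)) ∈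
        {z : C × (P → F) × (P → F) | ∃ q ∈ ({x} : Finset S),
          z = (κ q, (fun i : P => s i q), fun i : P => s q i)} :=
      ⟨x, mem_singleton_self x, rfl⟩
    rw [e3] at e4
    obtain ⟨z, hz, hz'⟩ := e4
    rw [mem_singleton] at hz
    rw [hz', hz]
  refine ⟨fun q hq r hr => congrArg Prod.fst (hcol q hq r hr), fun i hi q hq r hr => ?_,
    fun i hi q hq r hr => ?_, ?_⟩
  · have e := congrArg (fun z => z.2.1 ⟨i, hi⟩) (hcol q hq r hr)
    exact e
  · have e := congrArg (fun z => z.2.2 ⟨i, hi⟩) (hcol q hq r hr)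
    exact e
  · intro p hp q hq r hr t ht hpq hrt
    obtain ⟨p, hp', rfl⟩ := hAS p hp
    obtain ⟨q, hq', rfl⟩ := hAS q hq
    obtain ⟨r, hr', rfl⟩ := hAS r hr
    obtain ⟨t, ht', rfl⟩ := hAS t ht
    have hpq' : p ≠ q := fun e => hpq (by rw [e])
    have hrt' : r ≠ t := fun e => hrt (by rw [e])
    have sub : ∀ a b : S, a ∈ H → b ∈ H → ((({a, b} : Finset S) : Set S) ⊆ H) := by
      intro a b ha hb z hz
      have hz' := mem_coe.1 hz
      rcases mem_insert.1 hz' with rfl | hz'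
      · exact ha
      · rw [mem_singleton.1 hz']
        exact hb
    have e1 := h {p, q} (card_pair hpq') (sub p q hp' hq')
    have e2 := h {r, t} (card_pair hrt') (sub r t hr' ht')
    have e3 := e1.trans e2.symm
    have e4 : s (p : V) (q : V) ∈ {c : F | ∃ a ∈ ({p, q} : Finset S), ∃ b ∈ ({p, q} : Finset S),
        a ≠ b ∧ c = s a b} :=
      ⟨p, mem_insert_self _ _, q, mem_insert_of_mem (mem_singleton_self _), hpq', rfl⟩
    rw [e3] at e4
    obtain ⟨a, ha, b, hb, hab, he⟩ := e4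
    have hstrt : s (t : V) (r : V) = s (r : V) (t : V) := hsy _ t.2 _ r.2
    rw [he]
    rcases mem_insert.1 ha with ha | ha <;> rcases mem_insert.1 hb with hb | hb
    · exact absurd (ha.trans hb.symm) hab
    · rw [ha, mem_singleton.1 hb]
    · rw [mem_singleton.1 ha, hb]
      exact hstrt
    · exact absurd ((mem_singleton.1 ha).trans (mem_singleton.1 hb).symm) hab

/-- the finite theorem of Ramsey for symmetric symbols with two values -/
theorem hom_fin {C : Type} [Fintype C] [Nonempty C] (s : V → V → ZMod 2) (κ : V → C) (P S : Finset V)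
    (k e : ℕ) (hC : Fintype.card C ≤ 2 ^ e) (hsP : ∀ i ∈ P, ∀ q ∈ S, s q i = s i q)
    (hsy : ∀ p ∈ S, ∀ q ∈ S, s p q = s q p) (hS : 2 ^ (2 * k + P.card + e) ≤ S.card) :
    ∃ A ⊆ S, A.card = k ∧ Hom s κ P A := by
  let col : V → C × (P → ZMod 2) := fun q => (κ q, fun i => s i q)
  have hcard : Fintype.card (C × (P → ZMod 2)) ≤ 2 ^ (P.card + e) := by
    rw [Fintype.card_prod, Fintype.card_fun, ZMod.card, Fintype.card_coe, pow_add, mul_comm]
    exact Nat.mul_le_mul_left _ hC
  have h1 : ∃ y ∈ (univ : Finset (C × (P → ZMod 2))),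
      2 ^ (2 * k) ≤ (S.filter fun q => col q = y).card := by
    refine exists_le_card_fiber_of_mul_le_card_of_maps_to (fun q _ => mem_univ _)
      ⟨(Classical.arbitrary C, fun _ => 0), mem_univ _⟩ ?_
    rw [card_univ]
    calc Fintype.card (C × (P → ZMod 2)) * 2 ^ (2 * k) ≤ 2 ^ (P.card + e) * 2 ^ (2 * k) :=
          Nat.mul_le_mul_right _ hcard
      _ = 2 ^ (2 * k + P.card + e) := by ring
      _ ≤ S.card := hS
  obtain ⟨y, -, hy⟩ := h1
  set S' := S.filter fun q => col q = y with hS'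
  let G : SimpleGraph V := SimpleGraph.fromRel fun p q => s p q = 1 ∧ s q p = 1
  have hz : ∀ a : ZMod 2, a = 1 ∨ a = 0 := by decide
  have hcol : ∀ A ⊆ S', ∀ q ∈ A, ∀ r ∈ A, col q = col r := fun A hA q hq r hr =>
    (mem_filter.1 (hA hq)).2.trans (mem_filter.1 (hA hr)).2.symm
  have hmk : ∀ A ⊆ S', (∀ p ∈ A, ∀ q ∈ A, ∀ r ∈ A, ∀ t ∈ A, p ≠ q → r ≠ t → s p q = s r t) →
      Hom s κ P A := by
    intro A hA hpr
    have hin : ∀ i ∈ P, ∀ q ∈ A, ∀ r ∈ A, s i q = s i r := by
      intro i hi q hq r hr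
      have e := congrArg (fun z => z.2 ⟨i, hi⟩) (hcol A hA q hq r hr)
      exact e
    refine ⟨fun q hq r hr => congrArg Prod.fst (hcol A hA q hq r hr), hin, fun i hi q hq r hr => ?_,
      hpr⟩
    rw [hsP i hi q (mem_filter.1 (hA hq)).1, hsP i hi r (mem_filter.1 (hA hr)).1]
    exact hin i hi q hq r hr
  have hadj : ∀ p ∈ S', ∀ q ∈ S', p ≠ q → (G.Adj p q ↔ s p q = 1) := by
    intro p hp q hq hpq
    have e := hsy p (mem_filter.1 hp).1 q (mem_filter.1 hq).1
    simp only [G, SimpleGraph.fromRel_adj]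
    rw [← e]
    tauto
  rcases Pool.Agent.H265R2.CritP4.ramsey G (2 * k) k k (by omega) S' hy with
    ⟨A, hA, hk, h⟩ | ⟨A, hA, hk, h⟩
  · refine ⟨A, hA.trans (filter_subset _ _), hk, hmk A hA ?_⟩
    intro p hp q hq r hr t ht hpq hrt
    rw [(hadj p (hA hp) q (hA hq) hpq).1 (h p hp q hq hpq),
      (hadj r (hA hr) t (hA ht) hrt).1 (h r hr t ht hrt)]
  · refine ⟨A, hA.trans (filter_subset _ _), hk, hmk A hA ?_⟩
    intro p hp q hq r hr t ht hpq hrt
    have e1 : s p q = 0 := (hz _).resolve_left fun e =>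
      h p hp q hq ((hadj p (hA hp) q (hA hq) hpq).2 e)
    have e2 : s r t = 0 := (hz _).resolve_left fun e =>
      h r hr t ht ((hadj r (hA hr) t (hA ht) hrt).2 e)
    rw [e1, e2]

/-- double counting -/
theorem count (S : Finset V) (k N : ℕ) (Q : Finset V → Prop) (hkN : k ≤ N) (hN : N ≤ S.card)
    (h : ∀ B ⊆ S, B.card = N → ∃ A ⊆ B, A.card = k ∧ Q A) :
    S.card.choose k ≤ N.choose k * ((S.powersetCard k).filter Q).card := by
  set n := S.card with hn
  have h1 : (S.powersetCard N).card ≤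
      ((S.powersetCard k).filter Q).card * (n - k).choose (N - k) := by
    have h2 : ∑ B ∈ S.powersetCard N, 1 ≤ ∑ B ∈ S.powersetCard N,
        (((S.powersetCard k).filter Q).filter fun A => A ⊆ B).card := by
      refine sum_le_sum fun B hB => ?_
      obtain ⟨hB1, hB2⟩ := mem_powersetCard.1 hB
      obtain ⟨A, hA, hAk, hQ⟩ := h B hB1 hB2
      refine card_pos.2 ⟨A, ?_⟩
      rw [mem_filter, mem_filter, mem_powersetCard]
      exact ⟨⟨⟨hA.trans hB1, hAk⟩, hQ⟩, hA⟩
    rw [sum_const, smul_eq_mul, mul_one] at h2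
    refine h2.trans ?_
    have h3 : ∑ B ∈ S.powersetCard N,
        (((S.powersetCard k).filter Q).filter fun A => A ⊆ B).card =
        ∑ A ∈ (S.powersetCard k).filter Q, ((S.powersetCard N).filter fun B => A ⊆ B).card := by
      simp only [card_filter]
      rw [sum_comm]
    rw [h3, ← smul_eq_mul, ← sum_const]
    refine sum_le_sum fun A hA => ?_
    obtain ⟨hA1, -⟩ := mem_filter.1 hA
    obtain ⟨hA2, hA3⟩ := mem_powersetCard.1 hA1
    have h4 : ((S.powersetCard N).filter fun B => A ⊆ B).card ≤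
        ((S \ A).powersetCard (N - k)).card := by
      refine card_le_card_of_injOn (fun B => B \ A) ?_ ?_
      · intro B hB
        obtain ⟨hB1, hB2⟩ := mem_filter.1 hB
        obtain ⟨hB3, hB4⟩ := mem_powersetCard.1 hB1
        refine mem_coe.2 (mem_powersetCard.2 ⟨sdiff_subset_sdiff hB3 subset_rfl, ?_⟩)
        rw [card_sdiff_of_subset hB2, hB4, hA3]
      · intro B hB B' hB' he
        have e1 := (mem_filter.1 (mem_coe.1 hB)).2
        have e2 := (mem_filter.1 (mem_coe.1 hB')).2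
        have he' : B \ A = B' \ A := he
        rw [← sdiff_union_of_subset e1, ← sdiff_union_of_subset e2, he']
    refine h4.trans ?_
    rw [card_powersetCard, card_sdiff_of_subset hA2, hA3]
  rw [card_powersetCard] at h1
  have h5 : n.choose N * N.choose k = n.choose k * (n - k).choose (N - k) :=
    Nat.choose_mul hkN
  have h6 : 0 < (n - k).choose (N - k) := Nat.choose_pos (by omega)
  have h7 : n.choose k * (n - k).choose (N - k) ≤
      (N.choose k * ((S.powersetCard k).filter Q).card) * (n - k).choose (N - k) := by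
    rw [← h5]
    calc n.choose N * N.choose k ≤
        (((S.powersetCard k).filter Q).card * (n - k).choose (N - k)) * N.choose k :=
          Nat.mul_le_mul_right _ h1
      _ = _ := by ring
  exact Nat.le_of_mul_le_mul_right h7 h6

end Pool.Agent.U693.Gen
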