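import Pool.Agent.U693.X49.Gen

/-!
# The theorem of Ramsey for symmetric functions on pairs with finitely many values
-/

set_option autoImplicit false

open scoped Classical

namespace Pool.Agent.U693.Gen

open Finset

variable {V F : Type} [DecidableEq V]

/-- Ramsey, with target sizes `r` -/
theorem ramsey_multi [Fintype F] (hF : 2 ≤ Fintype.card F) (s : V → V → F) :
    ∀ (n : ℕ) (r : F → ℕ), ∑ a, r a ≤ n → ∀ S : Finset V, Fintype.card F ^ n ≤ S.card →
      (∀ p ∈ S, ∀ q ∈ S, s p q = s q p) →
      ∃ a : F, ∃ T ⊆ S, T.card = r a ∧ ∀ p ∈ T, ∀ q ∈ T, p ≠ q → s p q = a := by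
  intro n
  induction n with
  | zero =>
    intro r hr S _ _
    obtain ⟨a⟩ : Nonempty F := Fintype.card_pos_iff.1 (by omega)
    have h0 : r a = 0 := by
      have := single_le_sum (fun b _ => Nat.zero_le (r b)) (mem_univ a)
      omega
    exact ⟨a, ∅, empty_subset _, by rw [card_empty, h0], fun p hp => absurd hp (notMem_empty p)⟩
  | succ n ih =>
    intro r hr S hS hsy
    by_cases h0 : ∃ a, r a = 0
    · obtain ⟨a, ha⟩ := h0
      exact ⟨a, ∅, empty_subset _, by rw [card_empty, ha], fun p hp => absurd hp (notMem_empty p)⟩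
    push Not at h0
    have hc : 1 ≤ Fintype.card F ^ n := Nat.one_le_pow _ _ (by omega)
    have hS1 : 1 ≤ S.card := by
      refine le_trans ?_ hS
      exact Nat.one_le_pow _ _ (by omega)
    obtain ⟨v, hv⟩ := card_pos.1 hS1
    have h1 : ∃ a ∈ (univ : Finset F),
        Fintype.card F ^ n ≤ ((S.erase v).filter fun u => s v u = a).card := by
      by_contra hcon
      push Not at hcon
      have h2 : (S.erase v).card = ∑ a : F, ((S.erase v).filter fun u => s v u = a).card :=
        card_eq_sum_card_fiberwise fun _ _ => mem_univ _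
      have h3 : ∑ a : F, (((S.erase v).filter fun u => s v u = a).card + 1) ≤
          ∑ _a : F, Fintype.card F ^ n := sum_le_sum fun a _ => hcon a (mem_univ a)
      rw [sum_add_distrib, ← h2, card_erase_of_mem hv, sum_const, sum_const, card_univ, smul_eq_mul,
        smul_eq_mul, mul_one] at h3
      rw [pow_succ] at hS
      have h4 : Fintype.card F ^ n * Fintype.card F = Fintype.card F * Fintype.card F ^ n :=
        mul_comm _ _
      omega
    obtain ⟨a, -, ha⟩ := h1
    set S' := (S.erase v).filter fun u => s v u = a with hS'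
    have hsub : S' ⊆ S := (filter_subset _ _).trans (erase_subset _ _)
    have hr' : ∑ b, (Function.update r a (r a - 1)) b ≤ n := by
      have h2 : ∑ b, (Function.update r a (r a - 1)) b + 1 = ∑ b, r b := by
        rw [← sum_erase_add _ _ (mem_univ a), ← sum_erase_add univ r (mem_univ a)]
        have h3 : ∑ b ∈ univ.erase a, (Function.update r a (r a - 1)) b = ∑ b ∈ univ.erase a, r b :=
          sum_congr rfl fun b hb => Function.update_of_ne (ne_of_mem_erase hb) _ _
        rw [h3, Function.update_self]
        have := h0 a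
        omega
      omega
    obtain ⟨b, T, hT, hTc, hTp⟩ := ih _ hr' S' ha fun p hp q hq => hsy p (hsub hp) q (hsub hq)
    by_cases hb : b = a
    · subst hb
      rw [Function.update_self] at hTc
      have hvT : v ∉ T := fun h' => by
        have := hT h'
        rw [hS', mem_filter, mem_erase] at this
        exact this.1.1 rfl
      have hvs : ∀ u ∈ T, s v u = b := fun u hu => by
        have := hT hu
        rw [hS', mem_filter] at this
        exact this.2
      refine ⟨b, insert v T, insert_subset hv (hT.trans hsub), ?_, ?_⟩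
      · rw [card_insert_of_notMem hvT, hTc]
        have := h0 b
        omega
      · intro p hp q hq hpq
        rcases mem_insert.1 hp with hp' | hp' <;> rcases mem_insert.1 hq with hq' | hq'
        · exact absurd (hp'.trans hq'.symm) hpq
        · rw [hp']
          exact hvs q hq'
        · rw [hq', hsy p (hsub (hT hp')) v hv]
          exact hvs p hp'
        · exact hTp p hp' q hq' hpq
    · rw [Function.update_of_ne hb] at hTc
      exact ⟨b, T, hT.trans hsub, hTc, hTp⟩

/-- homogeneous subsets of large finite sets -/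
theorem hom_fin_multi [Field F] [Fintype F] {C : Type} [Fintype C] [Nonempty C] (s : V → V → F)
    (κ : V → C) (P S : Finset V) (k : ℕ) (hsP : ∀ i ∈ P, ∀ q ∈ S, s q i = s i q)
    (hsy : ∀ p ∈ S, ∀ q ∈ S, s p q = s q p)
    (hS : Fintype.card F ^ (Fintype.card F * k + P.card) * Fintype.card C ≤ S.card) :
    ∃ A ⊆ S, A.card = k ∧ Hom s κ P A := by
  let col : V → C × (P → F) := fun q => (κ q, fun i => s i q)
  have hcard : Fintype.card (C × (P → F)) = Fintype.card F ^ P.card * Fintype.card C := by
    rw [Fintype.card_prod, Fintype.card_fun, Fintype.card_coe, mul_comm]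
  have h1 : ∃ y ∈ (univ : Finset (C × (P → F))),
      Fintype.card F ^ (Fintype.card F * k) ≤ (S.filter fun q => col q = y).card := by
    refine exists_le_card_fiber_of_mul_le_card_of_maps_to (fun q _ => mem_univ _)
      ⟨(Classical.arbitrary C, fun _ => 0), mem_univ _⟩ ?_
    rw [card_univ, hcard]
    calc Fintype.card F ^ P.card * Fintype.card C * Fintype.card F ^ (Fintype.card F * k) =
          Fintype.card F ^ (Fintype.card F * k + P.card) * Fintype.card C := by ring
      _ ≤ S.card := hS
  obtain ⟨y, -, hy⟩ := h1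
  set S' := S.filter fun q => col q = y with hS'
  have hcol : ∀ A ⊆ S', ∀ q ∈ A, ∀ r ∈ A, col q = col r := fun A hA q hq r hr =>
    (mem_filter.1 (hA hq)).2.trans (mem_filter.1 (hA hr)).2.symm
  obtain ⟨a, A, hA, hAk, hAp⟩ := ramsey_multi (F := F) Fintype.one_lt_card s
    (Fintype.card F * k) (fun _ => k) (by rw [sum_const, card_univ, smul_eq_mul]) S' hy
    fun p hp q hq => hsy p (filter_subset _ _ hp) q (filter_subset _ _ hq)
  have hAS : A ⊆ S := hA.trans (filter_subset _ _)
  have hin : ∀ i ∈ P, ∀ q ∈ A, ∀ r ∈ A, s i q = s i r := by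
    intro i hi q hq r hr
    have e := congrArg (fun z => z.2 ⟨i, hi⟩) (hcol A hA q hq r hr)
    exact e
  refine ⟨A, hAS, hAk, fun q hq r hr => congrArg Prod.fst (hcol A hA q hq r hr), hin,
    fun i hi q hq r hr => ?_, fun p hp q hq r hr t ht hpq hrt => ?_⟩
  · rw [hsP i hi q (hAS hq), hsP i hi r (hAS hr)]
    exact hin i hi q hq r hr
  · rw [hAp p hp q hq hpq, hAp r hr t ht hrt]

end Pool.Agent.U693.Gen
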